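import Pool.Agent.T6.H65.SP.Coord

set_option autoImplicit false

/-!
# Complex structures on torus bundles over products of two surfaces

Let `Σ = Γ \ ℍ` and `Y = Δ \ ℍ` be closed surfaces of genus at least two, and let `ρ` be ANY
representation of `Γ = π₁(Σ)` on a real vector space `V` of dimension `2n ≥ 4` for which the flat
vector bundle `ℍ ×_Γ V` over `Σ` is trivial as a vector bundle. Let `𝒢` be a group of diffeomorphisms of
`ℍ × ℍ × V` of the form `(z, w, x) ↦ (γ z, δ w, ρ(γ) x + b(z, w))`, `γ ∈ Γ`, `δ ∈ Δ`, with arbitrary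
smooth maps `b : ℍ × ℍ → V`, which maps onto `Γ × Δ` and in which the elements over `(1, 1)` are
translations by constant vectors. If a smooth manifold `M` of dimension `2n + 4` is the quotient of
`ℍ × ℍ × V` by `𝒢`, then `M` is diffeomorphic to a complex manifold.

So all bundles over `Σ × Y` with fibre the torus `T^{2n}`, `n ≥ 2`, with affine structure group, with
monodromy coming from `π₁(Σ)` (in particular all principal `T^{2n}`-bundles) and with ARBITRARY Euler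
class in `H²(Σ × Y; Λ_ρ)` carry complex structures. They are almost complex.

The point is that the Euler class is arbitrary. A principal bundle is holomorphic for a constant
complex structure of the fibre only if its class in `H²(Σ × Y; Λ)` has no `(0, 2)`-part in
`H²(Σ × Y, O) ⊗ ℂⁿ`. This fails, for all complex structures of `Σ`, `Y` and of the fibre, for
instance for the circle bundle with Euler class `α ∪ β`, `α ∈ H¹(Σ)`, `β ∈ H¹(Y)`, times `T^{2n-1}`.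
Here the complex structure of the fibre varies holomorphically with the point of `Σ` in such a way that
the vertical holomorphic bundle `E` is a sum of line bundles of large degree on `Σ`; then
`H²(Σ × Y, E) = 0` and the obstruction disappears.

Proof. As for bundles over `Σ` one constructs a holomorphic family `Λ(z)`, `z ∈ ℍ`, of real isomorphisms
`V → ℂⁿ` with `Λ(γ z) ρ(γ) = (c z + d)^k Λ(z)`. The construction is carried out for the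
representation on `V ⊕ Z¹(Γ; V)` given by the crossed homomorphisms, and gives in addition holomorphic
maps `S(z) : Z¹(Γ; V) → ℂⁿ` with `S(γ z) τ + Λ(γ z) τ(γ) = (c z + d)^k S(z) τ` (generalised Eichler
integrals). With invariant partitions of unity the translation parts are brought to the normal form
`b_γ = s_γ(z) + t_γ(w)`, `b_δ = ε_δ(w)`, where `t(w) ∈ Z¹(Γ; V)`, and the fibre coordinate is
`Λ(z) x - H₀(z) + S(z) t(w) - (S(z) ∂ + Λ(z)) Φ(w)`, where `∂ : V → Z¹(Γ; V)` is the coboundary map and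
`H₀`, `Φ` are solutions of inhomogeneous Cauchy-Riemann equations in one variable.
-/

namespace Pool.Agent.Results.MP_1d980c_gt.BundlesOverProductsOfSurfaces

open Module UpperHalfPlane
open scoped Manifold ContDiff MatrixGroups Pointwise

/-- The group `Γ` of Möbius transformations acts freely, properly discontinuously and cocompactly on
the upper half-plane, so that `Γ \ ℍ` is a closed Riemann surface of genus at least two (and all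
of them are obtained). -/
structure IsSurfaceGroup (Γ : Subgroup SL(2, ℝ)) : Prop where
  free : ∀ g ∈ Γ, ∀ z : ℍ, g • z = z → g = 1
  proper : ∀ K : Set ℍ, IsCompact K → {g | g ∈ Γ ∧ ((g • K) ∩ K).Nonempty}.Finite
  cocompact : ∃ K : Set ℍ, IsCompact K ∧ ∀ z : ℍ, ∃ g ∈ Γ, g • z ∈ K

variable {V : Type} [NormedAddCommGroup V] [NormedSpace ℝ V]

/-- `𝒢` is a group of transformations `((z, w), x) ↦ ((γ z, δ w), ρ(γ) x + b(z, w))` of
`(ℍ × ℍ) × V`, with `γ ∈ Γ`, `δ ∈ Δ` and smooth maps `b : ℍ × ℍ → V`; it maps onto `Γ × Δ`, and its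
elements over `(1, 1)` are constant translations. -/
structure IsBundleGroup (Γ Δ : Subgroup SL(2, ℝ)) (ρ : Γ →* (V ≃L[ℝ] V))
    (𝒢 : Subgroup (Equiv.Perm ((ℍ × ℍ) × V))) : Prop where
  form : ∀ f ∈ 𝒢, ∃ (γ : Γ) (δ : Δ) (b : ℍ × ℍ → V),
    ContMDiff (𝓘(ℝ, ℂ).prod 𝓘(ℝ, ℂ)) 𝓘(ℝ, V) ∞ b ∧
    ∀ z w x, f ((z, w), x) = (((γ : SL(2, ℝ)) • z, (δ : SL(2, ℝ)) • w), ρ γ x + b (z, w))
  onto : ∀ (γ : Γ) (δ : Δ), ∃ f ∈ 𝒢, ∀ z w x,
    (f ((z, w), x)).1 = ((γ : SL(2, ℝ)) • z, (δ : SL(2, ℝ)) • w)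
  const : ∀ f ∈ 𝒢, (∀ p x, (f (p, x)).1 = p) → ∃ v, ∀ p x, f (p, x) = (p, x + v)

/-- **Complex structures on torus bundles over products of two surfaces.** Let `Γ \ ℍ` and `Δ \ ℍ` be
closed surfaces of genus at least two, `ρ` a representation of `Γ` on a real vector space `V` of
dimension `2n ≥ 4` such that the flat bundle `ℍ ×_Γ V` is trivial (`B` is a trivialization), `𝒢` an
extension of `Γ × Δ` by translations as above, and `M` a smooth manifold of dimension `2 (n + 2)` which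
is the quotient of `(ℍ × ℍ) × V` by `𝒢`. Then `M` is diffeomorphic to a complex manifold. -/
theorem result [FiniteDimensional ℝ V] (n : ℕ) (hn : 2 ≤ n) (hV : finrank ℝ V = 2 * n)
    (Γ Δ : Subgroup SL(2, ℝ)) (hΓ : IsSurfaceGroup Γ) (hΔ : IsSurfaceGroup Δ)
    (ρ : Γ →* (V ≃L[ℝ] V)) (B : ℍ → (V ≃L[ℝ] V)) (hB : Continuous fun z => (B z : V →L[ℝ] V))
    (hBρ : ∀ (γ : Γ) (z : ℍ) (x : V), B ((γ : SL(2, ℝ)) • z) x = ρ γ (B z x))
    (𝒢 : Subgroup (Equiv.Perm ((ℍ × ℍ) × V))) (h𝒢 : IsBundleGroup Γ Δ ρ 𝒢)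
    (M : Type) [TopologicalSpace M] [ChartedSpace (EuclideanSpace ℝ (Fin (2 * (n + 2)))) M]
    [IsManifold (𝓡 (2 * (n + 2))) ∞ M]
    (π : (ℍ × ℍ) × V → M) (hs : Function.Surjective π)
    (hl : IsLocalDiffeomorph ((𝓘(ℝ, ℂ).prod 𝓘(ℝ, ℂ)).prod 𝓘(ℝ, V)) (𝓡 (2 * (n + 2))) ∞ π)
    (hπ : ∀ p q, π p = π q ↔ ∃ f ∈ 𝒢, f p = q) :
    ∃ (X : Type) (_ : TopologicalSpace X)
      (_ : ChartedSpace (EuclideanSpace ℂ (Fin (n + 2))) X),
      IsManifold 𝓘(ℂ, EuclideanSpace ℂ (Fin (n + 2))) ∞ X ∧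
      Nonempty (Diffeomorph (𝓡 (2 * (n + 2))) 𝓘(ℝ, EuclideanSpace ℂ (Fin (n + 2))) M X ∞) := by
  classical
  have : CompleteSpace V := FiniteDimensional.complete ℝ V
  have hΓ' : Pool.Agent.T6.H65.SG.IsSurfaceGroup Γ := ⟨hΓ.free, hΓ.proper, hΓ.cocompact⟩
  have hΔ' : Pool.Agent.T6.H65.SG.IsSurfaceGroup Δ := ⟨hΔ.free, hΔ.proper, hΔ.cocompact⟩
  obtain ⟨d, τ, hτi, hτc, hτs⟩ := Pool.Agent.T6.H65.SP.exists_coc hΓ' ρ
  obtain ⟨k, Λ, S, hΛ, hS, hinj, hΛe, hSe⟩ :=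
    Pool.Agent.T6.H65.SP.exists_LS hΓ' n hn hV ρ hB hBρ τ hτc
  -- freeness
  have hfree : ∀ (Γ : Subgroup SL(2, ℝ)), IsSurfaceGroup Γ → ∀ γ γ' : Γ,
      (γ : SL(2, ℝ)) • UpperHalfPlane.I = (γ' : SL(2, ℝ)) • UpperHalfPlane.I → γ' = γ := by
    intro Γ hΓ γ γ' h1
    have h2 : (γ : SL(2, ℝ))⁻¹ * γ' = 1 := by
      refine hΓ.free _ (Γ.mul_mem (Γ.inv_mem γ.2) γ'.2) UpperHalfPlane.I ?_
      rw [mul_smul, ← h1, inv_smul_smul]
    apply Subtype.ext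
    rw [inv_mul_eq_one] at h2
    exact h2.symm
  -- lifts
  have hlift : ∀ (γ : Γ) (δ : Δ), ∃ (f : Equiv.Perm ((ℍ × ℍ) × V)) (b : ℍ × ℍ → V), f ∈ 𝒢 ∧
      ContMDiff (𝓘(ℝ, ℂ).prod 𝓘(ℝ, ℂ)) 𝓘(ℝ, V) ∞ b ∧
      ∀ z w x, f ((z, w), x) =
        (((γ : SL(2, ℝ)) • z, (δ : SL(2, ℝ)) • w), ρ γ x + b (z, w)) := by
    intro γ δ
    obtain ⟨f, hf, hf1⟩ := h𝒢.onto γ δ
    obtain ⟨γ', δ', b, hb, hfb⟩ := h𝒢.form f hf
    have h0 := hf1 UpperHalfPlane.I UpperHalfPlane.I 0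
    rw [hfb] at h0
    have h1 : γ' = γ := hfree Γ hΓ γ γ' (congrArg Prod.fst h0).symm
    have h2 : δ' = δ := hfree Δ hΔ δ δ' (congrArg Prod.snd h0).symm
    exact ⟨f, b, hf, hb, fun z w x => by rw [hfb, h1, h2]⟩
  choose fl bl hfl hbl hflb using hlift
  -- two lifts differ by a translation
  have hdiff : ∀ (f : Equiv.Perm ((ℍ × ℍ) × V)), f ∈ 𝒢 → ∀ (γ : Γ) (δ : Δ) (b : ℍ × ℍ → V),
      (∀ z w x, f ((z, w), x) =
        (((γ : SL(2, ℝ)) • z, (δ : SL(2, ℝ)) • w), ρ γ x + b (z, w))) →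
      ∀ (f' : Equiv.Perm ((ℍ × ℍ) × V)), f' ∈ 𝒢 → ∀ b' : ℍ × ℍ → V,
      (∀ z w x, f' ((z, w), x) =
        (((γ : SL(2, ℝ)) • z, (δ : SL(2, ℝ)) • w), ρ γ x + b' (z, w))) →
      ∃ v, ∀ p, b p = b' p + v := by
    intro f hf γ δ b hfb f' hf' b' hfb'
    have h1 : f * f'⁻¹ ∈ 𝒢 := 𝒢.mul_mem hf (𝒢.inv_mem hf')
    have hsurj : ∀ p : (ℍ × ℍ) × V, ∃ q : (ℍ × ℍ) × V, p = f' q ∧ (f * f'⁻¹) p = f q := by
      intro p
      refine ⟨f'⁻¹ p, ?_, rfl⟩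
      exact (f'.apply_symm_apply p).symm
    obtain ⟨v, hv⟩ := h𝒢.const _ h1 (fun p x => by
      obtain ⟨q, hq1, hq2⟩ := hsurj (p, x)
      rw [hq2]
      have h2 := hfb q.1.1 q.1.2 q.2
      have h3 := hfb' q.1.1 q.1.2 q.2
      simp only [Prod.mk.eta] at h2 h3
      rw [h2]
      have h4 := congrArg Prod.fst (hq1.trans h3)
      exact h4.symm)
    refine ⟨v, fun p => ?_⟩
    have h2 := hv (f' (p, 0)).1 (f' (p, 0)).2
    rw [Prod.mk.eta] at h2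
    have h3 : (f * f'⁻¹) (f' (p, 0)) = f (p, 0) := by
      change f (f'.symm (f' (p, 0))) = _
      rw [Equiv.symm_apply_apply]
    have h5 := hfb p.1 p.2 0
    have h6 := hfb' p.1 p.2 0
    simp only [Prod.mk.eta] at h5 h6
    rw [h3, h5, h6] at h2
    have h4 := congrArg Prod.snd h2
    simpa using h4
  -- the cocycle
  let ca : Γ → ℂ × ℂ → V := fun γ p => bl γ 1 (ofComplex p.1, ofComplex p.2)
  let ce : Δ → ℂ × ℂ → V := fun δ p => bl 1 δ (ofComplex p.1, ofComplex p.2)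
  have h11 : ∀ γ γ' : Γ, ∃ v : V, ∀ z w : ℍ,
      bl (γ * γ') 1 (z, w) = ρ γ (bl γ' 1 (z, w)) + bl γ 1 ((γ' : SL(2, ℝ)) • z, w) + v := by
    intro γ γ'
    obtain ⟨v, hv⟩ := hdiff _ (hfl (γ * γ') 1) (γ * γ') 1 _ (hflb (γ * γ') 1)
      (fl γ 1 * fl γ' 1) (𝒢.mul_mem (hfl _ _) (hfl _ _))
      (fun p => ρ γ (bl γ' 1 p) + bl γ 1 ((γ' : SL(2, ℝ)) • p.1, p.2)) (fun z w x => by
        change fl γ 1 (fl γ' 1 ((z, w), x)) = _
        rw [hflb, hflb, map_mul]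
        refine Prod.ext (Prod.ext ?_ ?_) ?_
        · change (γ : SL(2, ℝ)) • (γ' : SL(2, ℝ)) • z = ((γ * γ' : Γ) : SL(2, ℝ)) • z
          rw [Subgroup.coe_mul, mul_smul]
        · change ((1 : Δ) : SL(2, ℝ)) • ((1 : Δ) : SL(2, ℝ)) • w = ((1 : Δ) : SL(2, ℝ)) • w
          rw [Subgroup.coe_one, one_smul, one_smul]
        · change ρ γ (ρ γ' x + bl γ' 1 (z, w)) + bl γ 1 ((γ' : SL(2, ℝ)) • z,
            ((1 : Δ) : SL(2, ℝ)) • w) = ρ γ (ρ γ' x) + (ρ γ (bl γ' 1 (z, w)) +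
              bl γ 1 ((γ' : SL(2, ℝ)) • z, w))
          rw [Subgroup.coe_one, one_smul, map_add, add_assoc])
    exact ⟨v, fun z w => hv (z, w)⟩
  choose vv hvv using h11
  have h22 : ∀ δ δ' : Δ, ∃ v : V, ∀ z w : ℍ,
      bl 1 (δ * δ') (z, w) = bl 1 δ' (z, w) + bl 1 δ (z, (δ' : SL(2, ℝ)) • w) + v := by
    intro δ δ'
    obtain ⟨v, hv⟩ := hdiff _ (hfl 1 (δ * δ')) 1 (δ * δ') _ (hflb 1 (δ * δ'))
      (fl 1 δ * fl 1 δ') (𝒢.mul_mem (hfl _ _) (hfl _ _))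
      (fun p => bl 1 δ' p + bl 1 δ (p.1, (δ' : SL(2, ℝ)) • p.2)) (fun z w x => by
        change fl 1 δ (fl 1 δ' ((z, w), x)) = _
        rw [hflb, hflb, map_one]
        refine Prod.ext (Prod.ext ?_ ?_) ?_
        · change ((1 : Γ) : SL(2, ℝ)) • ((1 : Γ) : SL(2, ℝ)) • z = ((1 : Γ) : SL(2, ℝ)) • z
          rw [Subgroup.coe_one, one_smul, one_smul]
        · change (δ : SL(2, ℝ)) • (δ' : SL(2, ℝ)) • w = ((δ * δ' : Δ) : SL(2, ℝ)) • w
          rw [Subgroup.coe_mul, mul_smul]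
        · change (x + bl 1 δ' (z, w)) + bl 1 δ (((1 : Γ) : SL(2, ℝ)) • z,
            (δ' : SL(2, ℝ)) • w) = x + (bl 1 δ' (z, w) + bl 1 δ (z, (δ' : SL(2, ℝ)) • w))
          rw [Subgroup.coe_one, one_smul, add_assoc])
    exact ⟨v, fun z w => hv (z, w)⟩
  choose cc hcc using h22
  -- an arbitrary lift
  have hgen : ∀ (f : Equiv.Perm ((ℍ × ℍ) × V)), f ∈ 𝒢 → ∀ (γ : Γ) (δ : Δ) (b : ℍ × ℍ → V),
      (∀ z w x, f ((z, w), x) =
        (((γ : SL(2, ℝ)) • z, (δ : SL(2, ℝ)) • w), ρ γ x + b (z, w))) →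
      ∃ v, ∀ z w : ℍ, b (z, w) = ρ γ (bl 1 δ (z, w)) + bl γ 1 (z, (δ : SL(2, ℝ)) • w) + v := by
    intro f hf γ δ b hfb
    obtain ⟨v, hv⟩ := hdiff f hf γ δ b hfb (fl γ 1 * fl 1 δ) (𝒢.mul_mem (hfl _ _) (hfl _ _))
      (fun p => ρ γ (bl 1 δ p) + bl γ 1 (p.1, (δ : SL(2, ℝ)) • p.2)) (fun z w x => by
        change fl γ 1 (fl 1 δ ((z, w), x)) = _
        rw [hflb, hflb, map_one]
        refine Prod.ext (Prod.ext ?_ ?_) ?_
        · change (γ : SL(2, ℝ)) • ((1 : Γ) : SL(2, ℝ)) • z = (γ : SL(2, ℝ)) • z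
          rw [Subgroup.coe_one, one_smul]
        · change ((1 : Δ) : SL(2, ℝ)) • (δ : SL(2, ℝ)) • w = (δ : SL(2, ℝ)) • w
          rw [Subgroup.coe_one, one_smul]
        · change ρ γ (x + bl 1 δ (z, w)) + bl γ 1 (((1 : Γ) : SL(2, ℝ)) • z,
            (δ : SL(2, ℝ)) • w) = ρ γ x + (ρ γ (bl 1 δ (z, w)) + bl γ 1 (z, (δ : SL(2, ℝ)) • w))
          rw [Subgroup.coe_one, one_smul, map_add, add_assoc])
    exact ⟨v, fun z w => hv (z, w)⟩
  have h33 : ∀ (γ : Γ) (δ : Δ), ∃ v : V, ∀ z w : ℍ,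
      bl γ 1 (z, w) + bl 1 δ ((γ : SL(2, ℝ)) • z, w) =
        ρ γ (bl 1 δ (z, w)) + bl γ 1 (z, (δ : SL(2, ℝ)) • w) + v := by
    intro γ δ
    obtain ⟨v, hv⟩ := hgen (fl 1 δ * fl γ 1) (𝒢.mul_mem (hfl _ _) (hfl _ _)) γ δ
      (fun p => bl γ 1 p + bl 1 δ ((γ : SL(2, ℝ)) • p.1, p.2)) (fun z w x => by
        change fl 1 δ (fl γ 1 ((z, w), x)) = _
        rw [hflb, hflb, map_one]
        refine Prod.ext (Prod.ext ?_ ?_) ?_
        · change ((1 : Γ) : SL(2, ℝ)) • (γ : SL(2, ℝ)) • z = (γ : SL(2, ℝ)) • z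
          rw [Subgroup.coe_one, one_smul]
        · change (δ : SL(2, ℝ)) • ((1 : Δ) : SL(2, ℝ)) • w = (δ : SL(2, ℝ)) • w
          rw [Subgroup.coe_one, one_smul]
        · change (ρ γ x + bl γ 1 (z, w)) + bl 1 δ ((γ : SL(2, ℝ)) • z,
            ((1 : Δ) : SL(2, ℝ)) • w) = ρ γ x + (bl γ 1 (z, w) + bl 1 δ ((γ : SL(2, ℝ)) • z, w))
          rw [Subgroup.coe_one, one_smul, add_assoc])
    exact ⟨v, fun z w => hv z w⟩
  choose mm hmm using h33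
  have hoc : ∀ z ∈ Pool.Agent.T6.H65.SG.Up, ∀ g : SL(2, ℝ),
      ofComplex (Pool.Agent.T6.H65.SG.mb g z) = g • ofComplex z := by
    intro z hz g
    obtain ⟨z', rfl⟩ : ∃ z' : ℍ, (z' : ℂ) = z := ⟨⟨z, hz⟩, rfl⟩
    rw [Pool.Agent.T6.H65.SG.mb_coe, ofComplex_apply, ofComplex_apply]
  have hCc : Pool.Agent.T6.H65.SP.IsCc ρ ca ce vv cc mm := by
    refine ⟨fun γ => Pool.Agent.T6.H65.SP.smooth_lift2 (hbl γ 1),
      fun δ => Pool.Agent.T6.H65.SP.smooth_lift2 (hbl 1 δ), ?_, ?_, ?_⟩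
    · intro γ γ' z hz w hw
      change bl (γ * γ') 1 (ofComplex z, ofComplex w) = ρ γ (bl γ' 1 (ofComplex z, ofComplex w)) +
        bl γ 1 (ofComplex (Pool.Agent.T6.H65.SG.mb (γ' : SL(2, ℝ)) z), ofComplex w) + vv γ γ'
      rw [hoc z hz, hvv]
    · intro δ δ' z hz w hw
      change bl 1 (δ * δ') (ofComplex z, ofComplex w) = bl 1 δ' (ofComplex z, ofComplex w) +
        bl 1 δ (ofComplex z, ofComplex (Pool.Agent.T6.H65.SG.mb (δ' : SL(2, ℝ)) w)) + cc δ δ'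
      rw [hoc w hw, hcc]
    · intro γ δ z hz w hw
      change bl γ 1 (ofComplex z, ofComplex w) +
        bl 1 δ (ofComplex (Pool.Agent.T6.H65.SG.mb (γ : SL(2, ℝ)) z), ofComplex w) =
        ρ γ (bl 1 δ (ofComplex z, ofComplex w)) +
        bl γ 1 (ofComplex z, ofComplex (Pool.Agent.T6.H65.SG.mb (δ : SL(2, ℝ)) w)) + mm γ δ
      rw [hoc z hz, hoc w hw, hmm]
  obtain ⟨H, hH, hH1, hH2⟩ :=
    Pool.Agent.T6.H65.SP.exists_gauge hΓ' hΔ' hτi hτs hΛ hS hΛe hSe hCc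
  have hca : ∀ γ (z w : ℍ), ca γ ((z : ℂ), (w : ℂ)) = bl γ 1 (z, w) := fun γ z w => by
    change bl γ 1 (ofComplex (z : ℂ), ofComplex (w : ℂ)) = _
    rw [ofComplex_apply, ofComplex_apply]
  have hce : ∀ δ (z w : ℍ), ce δ ((z : ℂ), (w : ℂ)) = bl 1 δ (z, w) := fun δ z w => by
    change bl 1 δ (ofComplex (z : ℂ), ofComplex (w : ℂ)) = _
    rw [ofComplex_apply, ofComplex_apply]
  -- the coordinates with values in `EuclideanSpace`
  let κ : (ℂ × ℂ × (Fin n → ℂ)) ≃L[ℂ] EuclideanSpace ℂ (Fin (n + 2)) :=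
    ContinuousLinearEquiv.ofFinrankEq (by
      simp
      omega)
  refine Pool.Agent.T6.H65.SP.main hV hΛ hinj hH κ π hl {g | ∃ f ∈ 𝒢, g = f} ?_ ?_ ?_ hs
  · rintro _ ⟨f, hf, rfl⟩
    obtain ⟨γ, δ, b', hb', hfb⟩ := h𝒢.form f hf
    have h1 : (f : (ℍ × ℍ) × V → (ℍ × ℍ) × V) = fun p =>
        (((γ : SL(2, ℝ)) • p.1.1, (δ : SL(2, ℝ)) • p.1.2), ρ γ p.2 + b' p.1) := by
      funext p
      exact hfb p.1.1 p.1.2 p.2
    rw [h1]
    exact (((continuous_const_smul (γ : SL(2, ℝ))).comp (continuous_fst.comp continuous_fst)).prodMk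
      ((continuous_const_smul (δ : SL(2, ℝ))).comp (continuous_snd.comp continuous_fst))).prodMk
      (((ρ γ).continuous.comp continuous_snd).add (hb'.continuous.comp continuous_fst))
  · rintro _ ⟨f, hf, rfl⟩
    obtain ⟨γ, δ, b', hb', hfb⟩ := h𝒢.form f hf
    obtain ⟨v, hv⟩ := hgen f hf γ δ b' hfb
    refine ⟨γ, δ, fun z => Pool.Agent.T6.H65.SG.jf (γ : SL(2, ℝ)) z ^ k, fun p =>
      Pool.Agent.T6.H65.SG.jf (γ : SL(2, ℝ)) p.1 ^ k • (H p + (Λ p.1).f (ce δ p) -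
        H (p.1, Pool.Agent.T6.H65.SG.mb (δ : SL(2, ℝ)) p.2)) +
      (Pool.Agent.T6.H65.SG.jf (γ : SL(2, ℝ)) p.1 ^ k •
        H (p.1, Pool.Agent.T6.H65.SG.mb (δ : SL(2, ℝ)) p.2) +
        (Λ (Pool.Agent.T6.H65.SG.mb (γ : SL(2, ℝ)) p.1)).f
          (ca γ (p.1, Pool.Agent.T6.H65.SG.mb (δ : SL(2, ℝ)) p.2)) -
        H (Pool.Agent.T6.H65.SG.mb (γ : SL(2, ℝ)) p.1,
          Pool.Agent.T6.H65.SG.mb (δ : SL(2, ℝ)) p.2)) +
        Pool.Agent.T6.H65.Th.evW v (Λ (Pool.Agent.T6.H65.SG.mb (γ : SL(2, ℝ)) p.1)), ?_, ?_, ?_⟩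
    · exact (((Pool.Agent.T6.H65.SG.jf_smooth _).differentiable (by simp)).pow k).differentiableOn
    · have e1 : ContDiffOn ℂ ∞ (fun p : ℂ × ℂ =>
          Pool.Agent.T6.H65.SG.jf (γ : SL(2, ℝ)) p.1 ^ k) Pool.Agent.T6.H65.SP.UU :=
        (((Pool.Agent.T6.H65.SG.jf_smooth _).comp contDiff_fst).pow k).contDiffOn
      have e2 : ContDiffOn ℂ ∞ (fun p : ℂ × ℂ => (p.1, Pool.Agent.T6.H65.SG.mb (δ : SL(2, ℝ)) p.2))
          Pool.Agent.T6.H65.SP.UU :=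
        contDiff_fst.contDiffOn.prodMk ((Pool.Agent.T6.H65.SG.mb_smooth _).comp
          contDiff_snd.contDiffOn fun p hp => hp.2)
      have e3 := (hH1 γ).comp e2 fun p hp => Pool.Agent.T6.H65.SP.maps_snd (δ : SL(2, ℝ)) hp
      have e4 : ContDiffOn ℂ ∞ (fun p : ℂ × ℂ => Pool.Agent.T6.H65.Th.evW v
          (Λ (Pool.Agent.T6.H65.SG.mb (γ : SL(2, ℝ)) p.1))) Pool.Agent.T6.H65.SP.UU :=
        (Pool.Agent.T6.H65.Th.evW v :
          Pool.Agent.T6.H65.Th.W V (Fin n → ℂ) →L[ℂ] (Fin n → ℂ)).contDiff.comp_contDiffOn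
          ((hΛ.contDiffOn Pool.Agent.T6.H65.SG.isOpen_Up : ContDiffOn ℂ ∞ Λ _).comp
            ((Pool.Agent.T6.H65.SG.mb_smooth _).comp contDiff_fst.contDiffOn fun p hp => hp.1)
            fun p hp => Pool.Agent.T6.H65.SG.mb_mem _ hp.1)
      exact ((e1.smul (hH2 δ)).add e3).add e4
    · intro z w x
      rw [hfb]
      refine ⟨rfl, ?_⟩
      have h5 := hΛe γ z x
      have h5' := hΛe γ z (bl 1 δ (z, w))
      have e1 : ce δ ((z : ℂ), (w : ℂ)) = bl 1 δ (z, w) := hce δ z w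
      have e2 : ca γ ((z : ℂ), (((δ : SL(2, ℝ)) • w : ℍ) : ℂ)) =
        bl γ 1 (z, (δ : SL(2, ℝ)) • w) := hca γ z _
      change (Λ ((γ : SL(2, ℝ)) • z : ℍ)).f (ρ γ x + b' (z, w)) -
          H (((γ : SL(2, ℝ)) • z : ℍ), ((δ : SL(2, ℝ)) • w : ℍ)) =
        Pool.Agent.T6.H65.SG.jf (γ : SL(2, ℝ)) z ^ k • ((Λ z).f x - H (z, w)) +
        (Pool.Agent.T6.H65.SG.jf (γ : SL(2, ℝ)) z ^ k • (H (z, w) + (Λ z).f (ce δ (z, w)) -
          H (z, Pool.Agent.T6.H65.SG.mb (δ : SL(2, ℝ)) w)) +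
        (Pool.Agent.T6.H65.SG.jf (γ : SL(2, ℝ)) z ^ k •
          H (z, Pool.Agent.T6.H65.SG.mb (δ : SL(2, ℝ)) w) +
          (Λ (Pool.Agent.T6.H65.SG.mb (γ : SL(2, ℝ)) z)).f
            (ca γ (z, Pool.Agent.T6.H65.SG.mb (δ : SL(2, ℝ)) w)) -
          H (Pool.Agent.T6.H65.SG.mb (γ : SL(2, ℝ)) z,
            Pool.Agent.T6.H65.SG.mb (δ : SL(2, ℝ)) w)) +
        (Λ (Pool.Agent.T6.H65.SG.mb (γ : SL(2, ℝ)) z)).f v)
      rw [Pool.Agent.T6.H65.SG.mb_coe, Pool.Agent.T6.H65.SG.mb_coe, e1, e2, hv z w, map_add,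
        map_add, map_add, h5, h5', smul_sub, smul_sub, smul_add]
      abel
  · intro p q
    rw [hπ]
    constructor
    · rintro ⟨f, hf, h⟩
      exact ⟨f, ⟨f, hf, rfl⟩, h⟩
    · rintro ⟨_, ⟨f, hf, rfl⟩, h⟩
      exact ⟨f, hf, h⟩

end Pool.Agent.Results.MP_1d980c_gt.BundlesOverProductsOfSurfaces
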