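import Pool.Agent.T6.H65.Gr.Main

set_option autoImplicit false

/-!
# Complex structures on products of graded nilmanifolds and on bundles of such products

Let `H` be a homogeneous group: `ℝ^N` with a polynomial group law `x * y = x + y + P(x, y)` for which
the dilations `x_k ↦ t^(w k) x_k`, with weights `w k ≥ 1`, are automorphisms. By the
Baker-Campbell-Hausdorff formula every simply connected nilpotent Lie group whose Lie algebra has a
positive grading, in particular every two-step group and every Carnot group of any step, is of this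
form. Let `H'` be another homogeneous group with the same weights whose complexification is isomorphic
to that of `H`; for instance `H' = H`, or two different real forms.

Let `M` be a smooth manifold which is a quotient of `ℂ^d × H × H'` by a set of transformations
`(z, a, b) ↦ (f z, a₀ * A a, b₀ * B b)` with `f` holomorphic and `(A, B)` a compatible pair of graded
endomorphisms (for `d = 0`, `A = B = 1`: left translations). Then `M` carries a complex structure.

Examples: the product `Γ \ H × Γ' \ H'` of two compact nilmanifolds, in particular `N × N` and `N × N'`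
for all compact nilmanifolds `N`, `N'` with the same graded group (the dimension of `N` may be odd, and
`H` need not have any left-invariant complex structure if its dimension is even); all other compact
quotients of `H × H'`; infranilmanifolds; compact quotients of solvable groups `ℝ^(2d) ⋉ (H × H)` where
`ℝ^(2d)` acts by graded automorphisms of `H`, the same on both factors. All quotients of
`H × H'` by discrete groups of left translations are parallelizable, so they are almost complex.

Proof. The dilations `δ_τ` extend to automorphisms of the complex group `H_ℂ` for complex `τ`. The map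
`H × H' → H'_ℂ`, `(a, b) ↦ b * (δ_τ T a)⁻¹`, is a diffeomorphism for a suitable `τ` with `|τ| = 1` (it is
triangular), and it turns the left translation by `(a₀, b₀)` into the holomorphic map
`u ↦ b₀ * u * (δ_τ T a₀)⁻¹`.
-/

namespace Pool.Agent.Results.MP_1d980c_gt.ProductsOfGradedGroups

open MvPolynomial
open scoped Manifold ContDiff

/-- The product `x * y = x + y + P(x, y)` of two points with coordinates in a commutative
`ℝ`-algebra `A` (here `A = ℝ` or `A = ℂ`). `P` consists of `N` real polynomials in the `2 N` variables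
`x_j` (`Sum.inl j`) and `y_j` (`Sum.inr j`). -/
noncomputable def prod {N : ℕ} {A : Type} [CommRing A] [Algebra ℝ A]
    (P : Fin N → MvPolynomial (Fin N ⊕ Fin N) ℝ) (x y : Fin N → A) : Fin N → A :=
  fun k => x k + y k + aeval (Sum.elim x y) (P k)

/-- `x * y = x + y + P(x, y)` is the law of a homogeneous group on `ℝ^N` with weights `w`: `P_k` is
weighted homogeneous of degree `w k` and contains only variables `x_j`, `y_j` with `w j < w k`;
`0` is neutral; the product is associative. (Inverses exist automatically.) -/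
structure HomogeneousLaw {N : ℕ} (w : Fin N → ℕ) (P : Fin N → MvPolynomial (Fin N ⊕ Fin N) ℝ) :
    Prop where
  pos : ∀ k, 1 ≤ w k
  homogeneous : ∀ k, IsWeightedHomogeneous (Sum.elim w w) (P k) (w k)
  lower : ∀ k, ∀ i ∈ (P k).vars, Sum.elim w w i < w k
  zero_prod : ∀ y : Fin N → ℝ, prod P 0 y = y
  prod_zero : ∀ x : Fin N → ℝ, prod P x 0 = x
  assoc : ∀ x y z : Fin N → ℝ, prod P (prod P x y) z = prod P x (prod P y z)

/-- The matrix `T` is an isomorphism from the complexification of the group with law `P` to that of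
the group with law `Q` which preserves the weights. -/
structure ComplexIso {N : ℕ} (w : Fin N → ℕ) (P Q : Fin N → MvPolynomial (Fin N ⊕ Fin N) ℝ)
    (T : Matrix (Fin N) (Fin N) ℂ) : Prop where
  graded : ∀ j k, w j ≠ w k → T j k = 0
  det_ne_zero : T.det ≠ 0
  hom : ∀ x y : Fin N → ℂ, T.mulVec (prod P x y) = prod Q (T.mulVec x) (T.mulVec y)

/-- The space `ℂ^d × ℝ^N × ℝ^N`. -/
abbrev Space (d N : ℕ) : Type := (Fin d → ℂ) × (Fin N → ℝ) × (Fin N → ℝ)

/-- Transformations `(z, a, b) ↦ (f z, a₀ * A a, b₀ * B b)` of `ℂ^d × ℝ^N × ℝ^N`, where `f` is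
holomorphic, `a₀ * A a` is a product for `P` and `b₀ * B b` a product for `Q`, and `A`, `B` are real
matrices with `T A = B T` such that `B` preserves the weights and is an endomorphism of the group with
law `Q` (so `A` is one for `P`). For `d = 0` and `A = B = 1` these are the left translations. -/
def Allowed {d N : ℕ} (w : Fin N → ℕ) (P Q : Fin N → MvPolynomial (Fin N ⊕ Fin N) ℝ)
    (T : Matrix (Fin N) (Fin N) ℂ) (g : Space d N → Space d N) : Prop :=
  ∃ (f : (Fin d → ℂ) → (Fin d → ℂ)) (a₀ b₀ : Fin N → ℝ) (A B : Matrix (Fin N) (Fin N) ℝ),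
    ContDiff ℂ ∞ f ∧ (∀ j k, w j ≠ w k → B j k = 0) ∧
    T * A.map Complex.ofReal = B.map Complex.ofReal * T ∧
    (∀ x y : Fin N → ℝ, B.mulVec (prod Q x y) = prod Q (B.mulVec x) (B.mulVec y)) ∧
    ∀ z a b, g (z, a, b) = (f z, prod P a₀ (A.mulVec a), prod Q b₀ (B.mulVec b))

theorem op_eq {N : ℕ} {A : Type} [CommRing A] [Algebra ℝ A]
    (P : Fin N → MvPolynomial (Fin N ⊕ Fin N) ℝ) (x y : Fin N → A) :
    Pool.Agent.T6.H65.Gr.op P x y = prod P x y := rfl

theorem mv_eq {N : ℕ} (B : Matrix (Fin N) (Fin N) ℝ) (x : Fin N → ℝ) :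
    Pool.Agent.T6.H65.Gr.mv B x = B.mulVec x := by
  funext k
  simp [Pool.Agent.T6.H65.Gr.mv, Matrix.mulVec, dotProduct]

theorem mv_eq' {N : ℕ} (B : Matrix (Fin N) (Fin N) ℝ) (x : Fin N → ℂ) :
    Pool.Agent.T6.H65.Gr.mv B x = (B.map Complex.ofReal).mulVec x := by
  funext k
  simp [Pool.Agent.T6.H65.Gr.mv, Matrix.mulVec, dotProduct]

theorem law_of {N : ℕ} {w : Fin N → ℕ} {P : Fin N → MvPolynomial (Fin N ⊕ Fin N) ℝ}
    (h : HomogeneousLaw w P) : Pool.Agent.T6.H65.Gr.Law w P where
  pos := h.pos
  homog := h.homogeneous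
  lower := h.lower
  zero_left y := by
    have h1 := h.zero_prod y
    funext k
    have h2 := congrFun h1 k
    simp only [prod, Pi.zero_apply, zero_add] at h2
    change aeval _ (P k) = 0
    linarith
  zero_right y := by
    have h1 := h.prod_zero y
    funext k
    have h2 := congrFun h1 k
    simp only [prod, Pi.zero_apply, add_zero] at h2
    change aeval _ (P k) = 0
    linarith
  assoc := h.assoc

/-- **Complex structures on quotients of `ℂ^d × H × H'`.** Let `P` and `Q` be the laws of two
homogeneous groups `H`, `H'` on `ℝ^N` with the same weights and `T` a graded isomorphism of their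
complexifications. Let `M` be a smooth manifold of dimension `2 (d + N)` which is a quotient of
`ℂ^d × H × H'` by a set of transformations as in `Allowed`: there is a surjective local diffeomorphism
`π` onto `M` whose fibres are the orbits. Then `M` is diffeomorphic to a complex manifold. -/
theorem result {d N : ℕ} (w : Fin N → ℕ) (P Q : Fin N → MvPolynomial (Fin N ⊕ Fin N) ℝ)
    (hP : HomogeneousLaw w P) (hQ : HomogeneousLaw w Q) (T : Matrix (Fin N) (Fin N) ℂ)
    (hT : ComplexIso w P Q T)
    (M : Type) [TopologicalSpace M] [ChartedSpace (EuclideanSpace ℝ (Fin (2 * (d + N)))) M]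
    [IsManifold (𝓡 (2 * (d + N))) ∞ M]
    (S : Set (Space d N → Space d N)) (hS : ∀ g ∈ S, Allowed w P Q T g)
    (π : Space d N → M) (hs : Function.Surjective π)
    (hl : IsLocalDiffeomorph 𝓘(ℝ, Space d N) (𝓡 (2 * (d + N))) ∞ π)
    (hπ : ∀ x y, π x = π y ↔ ∃ g ∈ S, g x = y) :
    ∃ (X : Type) (_ : TopologicalSpace X)
      (_ : ChartedSpace (EuclideanSpace ℂ (Fin (d + N))) X),
      IsManifold 𝓘(ℂ, EuclideanSpace ℂ (Fin (d + N))) ∞ X ∧
      Nonempty (Diffeomorph (𝓡 (2 * (d + N))) 𝓘(ℝ, EuclideanSpace ℂ (Fin (d + N))) M X ∞) := by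
  have _ := hP
  refine Pool.Agent.T6.H65.Gr.main (law_of hQ) ⟨hT.graded, hT.det_ne_zero, hT.hom⟩ M S
    (fun g hg => ?_) π hs hl hπ
  obtain ⟨f, a₀, b₀, A, B, h1, h2, h3, h4, h5⟩ := hS g hg
  refine ⟨⟨f, a₀, b₀, A, B, h1, h2, fun x => ?_, fun x y => ?_, fun p => ?_⟩⟩
  · rw [mv_eq', mv_eq', Matrix.mulVec_mulVec, Matrix.mulVec_mulVec, h3]
  · rw [mv_eq, mv_eq, mv_eq]
    exact h4 x y
  · rw [mv_eq, mv_eq]
    exact h5 p.1 p.2.1 p.2.2

end Pool.Agent.Results.MP_1d980c_gt.ProductsOfGradedGroups
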