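import Pool.Agent.T6.H65.SG.Coord

set_option autoImplicit false

/-!
# Complex structures on torus bundles over surfaces of higher genus

Let `Σ = Γ \ ℍ` be a closed surface of genus at least two, `Γ ⊆ SL(2, ℝ)`, and let `ρ` be ANY
representation of `Γ = π₁(Σ)` on a real vector space `V` of dimension `2n ≥ 4` for which the flat vector
bundle `ℍ ×_Γ V` over `Σ` is trivial as a vector bundle (for `det ρ > 0` this means that its second
Stiefel-Whitney class vanishes). Let `𝒢` be a group of diffeomorphisms of `ℍ × V` of the form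
`(z, x) ↦ (γ z, ρ(γ) x + b(z))`, `γ ∈ Γ`, with arbitrary smooth maps `b : ℍ → V`, which maps onto `Γ`
and in which the elements over `1 ∈ Γ` are translations by constant vectors. If a smooth manifold `M`
of dimension `2n + 2` is the quotient of `ℍ × V` by `𝒢`, then `M` is diffeomorphic to a complex manifold.

So for every `k ≥ 3` all bundles over closed orientable surfaces of genus `≥ 2` with fibre the torus
`T^{2k-2}`, with affine structure group (transition functions with values in the affine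
transformations of the torus, arbitrary monodromy in `SL(2k-2, ℤ)` and arbitrary Euler class) and with
trivial vertical tangent bundle carry complex structures. They are almost complex. In dimension
four (`n = 1`) the statement is false: there are such bundles with fibre `T²` without complex
structure.

Proof. One constructs a holomorphic family `Λ(z)`, `z ∈ ℍ`, of real isomorphisms `V → ℂⁿ` with
`Λ(γ z) ρ(γ) = (c z + d)^k Λ(z)`. It is `Λ = θ₁ R₁ + θ₂ R₂`, where `(θ₁, θ₂)` is a pair of automorphic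
forms of large weight `k` whose norm `(|θ₁| + |θ₂|) (Im z)^{k/2}` is bounded above and below by
constants which do not depend on `k`, and `R_i` are Poincaré series with coefficients in
`Hom(V, ℂⁿ)`, which at the scale `k^{-1/2}` look like combinations of the `θ_j` with the coefficients of a
fixed quadratic family `a² L₀ + a b L₁ + b² L₂` of isomorphisms. The pair `(θ₁, θ₂)` is a sum of
peak functions with centres in a `Γ`-invariant net; the coefficients are chosen at random and the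
Lovász local lemma (from the starting module `Pool.Agent.H542R2.RK.P_LLL`) shows that the lower
bound can be reached. The translation parts are corrected with the help of a solution of the
inhomogeneous Cauchy-Riemann equation in the half-plane.
-/

namespace Pool.Agent.Results.MP_1d980c_gt.TorusBundlesOverSurfaces

open Module UpperHalfPlane
open scoped Manifold ContDiff MatrixGroups Pointwise

/-- The group `Γ` of Möbius transformations acts freely, properly discontinuously and cocompactly on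
the upper half-plane, so that `Γ \ ℍ` is a closed Riemann surface of genus at least two (and all
of them are obtained). -/
structure IsSurfaceGroup (Γ : Subgroup SL(2, ℝ)) : Prop where
  free : ∀ g ∈ Γ, ∀ z : ℍ, g • z = z → g = 1
  proper : ∀ K : Set ℍ, IsCompact K → {g | g ∈ Γ ∧ ((g • K) ∩ K).Nonempty}.Finite
  cocompact : ∃ K : Set ℍ, IsCompact K ∧ ∀ z : ℍ, ∃ g ∈ Γ, g • z ∈ K

variable {V : Type} [NormedAddCommGroup V] [NormedSpace ℝ V]

/-- `𝒢` is a group of transformations `(z, x) ↦ (γ z, ρ(γ) x + b(z))` of `ℍ × V`, with `γ ∈ Γ` and smooth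
maps `b : ℍ → V`; it maps onto `Γ`, and its elements over `1 ∈ Γ` are constant translations. -/
structure IsBundleGroup (Γ : Subgroup SL(2, ℝ)) (ρ : Γ →* (V ≃L[ℝ] V))
    (𝒢 : Subgroup (Equiv.Perm (ℍ × V))) : Prop where
  form : ∀ f ∈ 𝒢, ∃ (γ : Γ) (b : ℍ → V), ContMDiff 𝓘(ℝ, ℂ) 𝓘(ℝ, V) ∞ b ∧
    ∀ z x, f (z, x) = ((γ : SL(2, ℝ)) • z, ρ γ x + b z)
  onto : ∀ γ : Γ, ∃ f ∈ 𝒢, ∀ z x, (f (z, x)).1 = (γ : SL(2, ℝ)) • z
  const : ∀ f ∈ 𝒢, (∀ z x, (f (z, x)).1 = z) → ∃ v, ∀ z x, f (z, x) = (z, x + v)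

/-- **Complex structures on torus bundles over surfaces of higher genus.** Let `Γ \ ℍ` be a closed
surface of genus at least two, `ρ` a representation of `Γ` on a real vector space `V` of dimension
`2n ≥ 4` such that the flat bundle `ℍ ×_Γ V` is trivial (`B` is a trivialization), `𝒢` an extension of
`Γ` by translations as above, and `M` a smooth manifold of dimension `2 (n + 1)` which is the quotient
of `ℍ × V` by `𝒢`. Then `M` is diffeomorphic to a complex manifold. -/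
theorem result [FiniteDimensional ℝ V] (n : ℕ) (hn : 2 ≤ n) (hV : finrank ℝ V = 2 * n)
    (Γ : Subgroup SL(2, ℝ)) (hΓ : IsSurfaceGroup Γ) (ρ : Γ →* (V ≃L[ℝ] V))
    (B : ℍ → (V ≃L[ℝ] V)) (hB : Continuous fun z => (B z : V →L[ℝ] V))
    (hBρ : ∀ (γ : Γ) (z : ℍ) (x : V), B ((γ : SL(2, ℝ)) • z) x = ρ γ (B z x))
    (𝒢 : Subgroup (Equiv.Perm (ℍ × V))) (h𝒢 : IsBundleGroup Γ ρ 𝒢)
    (M : Type) [TopologicalSpace M] [ChartedSpace (EuclideanSpace ℝ (Fin (2 * (n + 1)))) M]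
    [IsManifold (𝓡 (2 * (n + 1))) ∞ M]
    (π : ℍ × V → M) (hs : Function.Surjective π)
    (hl : IsLocalDiffeomorph (𝓘(ℝ, ℂ).prod 𝓘(ℝ, V)) (𝓡 (2 * (n + 1))) ∞ π)
    (hπ : ∀ p q, π p = π q ↔ ∃ f ∈ 𝒢, f p = q) :
    ∃ (X : Type) (_ : TopologicalSpace X)
      (_ : ChartedSpace (EuclideanSpace ℂ (Fin (n + 1))) X),
      IsManifold 𝓘(ℂ, EuclideanSpace ℂ (Fin (n + 1))) ∞ X ∧
      Nonempty (Diffeomorph (𝓡 (2 * (n + 1))) 𝓘(ℝ, EuclideanSpace ℂ (Fin (n + 1))) M X ∞) := by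
  classical
  have : CompleteSpace V := FiniteDimensional.complete ℝ V
  have hΓ' : Pool.Agent.T6.H65.SG.IsSurfaceGroup Γ := ⟨hΓ.free, hΓ.proper, hΓ.cocompact⟩
  -- the representation as a function on the whole group
  let ρ' : SL(2, ℝ) → V ≃L[ℝ] V := fun g =>
    if h : g ∈ Γ then ρ ⟨g, h⟩ else ContinuousLinearEquiv.refl ℝ V
  have hρ' : ∀ γ : Γ, ρ' γ = ρ γ := fun γ => by
    change (if h : (γ : SL(2, ℝ)) ∈ Γ then ρ ⟨γ, h⟩ else _) = _
    rw [dif_pos γ.2]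
  have hEq : Pool.Agent.T6.H65.SG.Equi Γ ρ' B := fun g hg z x => by
    rw [hρ' ⟨g, hg⟩]
    exact hBρ ⟨g, hg⟩ z x
  obtain ⟨k, Λ, hΛ, hinj, hper⟩ := Pool.Agent.T6.H65.SG.exists_family hΓ' n hn hV hB hEq
  -- lifts
  have hlift : ∀ γ : Γ, ∃ (f : Equiv.Perm (ℍ × V)) (b : ℍ → V), f ∈ 𝒢 ∧
      ContMDiff 𝓘(ℝ, ℂ) 𝓘(ℝ, V) ∞ b ∧ ∀ z x, f (z, x) = ((γ : SL(2, ℝ)) • z, ρ γ x + b z) := by
    intro γ
    obtain ⟨f, hf, hf1⟩ := h𝒢.onto γ
    obtain ⟨γ', b, hb, hfb⟩ := h𝒢.form f hf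
    have h1 : (γ : SL(2, ℝ)) • UpperHalfPlane.I = (γ' : SL(2, ℝ)) • UpperHalfPlane.I := by
      rw [← hf1 UpperHalfPlane.I 0, hfb]
    have h2 : (γ : SL(2, ℝ))⁻¹ * γ' = 1 := by
      refine hΓ.free _ (Γ.mul_mem (Γ.inv_mem γ.2) γ'.2) UpperHalfPlane.I ?_
      rw [mul_smul, ← h1, inv_smul_smul]
    have h3 : γ' = γ := by
      apply Subtype.ext
      rw [inv_mul_eq_one] at h2
      exact h2.symm
    exact ⟨f, b, hf, hb, fun z x => by rw [hfb, h3]⟩
  choose fl bl hfl hbl hflb using hlift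
  -- two lifts differ by a translation
  have hdiff : ∀ (f : Equiv.Perm (ℍ × V)), f ∈ 𝒢 → ∀ (γ : Γ) (b : ℍ → V),
      (∀ z x, f (z, x) = ((γ : SL(2, ℝ)) • z, ρ γ x + b z)) → ∃ v, ∀ z, b z = bl γ z + v := by
    intro f hf γ b hfb
    have h1 : f * (fl γ)⁻¹ ∈ 𝒢 := 𝒢.mul_mem hf (𝒢.inv_mem (hfl γ))
    have hsurj : ∀ p : ℍ × V, ∃ q : ℍ × V, p = fl γ q ∧ (f * (fl γ)⁻¹) p = f q := by
      intro p
      refine ⟨(fl γ)⁻¹ p, ?_, rfl⟩
      exact ((fl γ).apply_symm_apply p).symm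
    obtain ⟨v, hv⟩ := h𝒢.const _ h1 (fun z x => by
      obtain ⟨q, hq1, hq2⟩ := hsurj (z, x)
      rw [hq2]
      have h2 := hfb q.1 q.2
      have h3 := hflb γ q.1 q.2
      rw [Prod.mk.eta] at h2 h3
      rw [h2]
      have h4 := congrArg Prod.fst (hq1.trans h3)
      exact h4.symm)
    refine ⟨v, fun z => ?_⟩
    have h2 := hv (fl γ (z, 0)).1 (fl γ (z, 0)).2
    rw [Prod.mk.eta] at h2
    have h3 : (f * (fl γ)⁻¹) (fl γ (z, 0)) = f (z, 0) := by
      change f ((fl γ).symm (fl γ (z, 0))) = _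
      rw [Equiv.symm_apply_apply]
    rw [h3, hfb, hflb] at h2
    have h4 := congrArg Prod.snd h2
    simpa using h4
  let b : SL(2, ℝ) → ℂ → V := fun g z =>
    if h : g ∈ Γ then bl ⟨g, h⟩ (ofComplex z) else 0
  have hbe : ∀ (γ : Γ) (z : ℂ), b γ z = bl γ (ofComplex z) := fun γ z => by
    change (if h : (γ : SL(2, ℝ)) ∈ Γ then bl ⟨γ, h⟩ (ofComplex z) else 0) = _
    rw [dif_pos γ.2]
  have hbs : ∀ g ∈ Γ, ContDiffOn ℝ ∞ (b g) Pool.Agent.T6.H65.SG.Up := by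
    intro g hg
    have h1 := Pool.Agent.T6.H65.SG.smooth_lift (hbl ⟨g, hg⟩)
    exact h1.congr fun z _ => hbe ⟨g, hg⟩ z
  have hcoc : ∀ g ∈ Γ, ∀ h ∈ Γ, ∃ v : V, ∀ z : ℍ,
      b (g * h) z = ρ' g (b h z) + b g (h • z : ℍ) + v := by
    intro g hg h hh
    obtain ⟨v, hv⟩ := hdiff (fl ⟨g, hg⟩ * fl ⟨h, hh⟩) (𝒢.mul_mem (hfl _) (hfl _))
      (⟨g, hg⟩ * ⟨h, hh⟩) (fun z => ρ ⟨g, hg⟩ (bl ⟨h, hh⟩ z) + bl ⟨g, hg⟩ (h • z)) (fun z x => by
        change fl ⟨g, hg⟩ (fl ⟨h, hh⟩ (z, x)) = _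
        rw [hflb, hflb, map_mul]
        refine Prod.ext ?_ ?_
        · change g • h • z = (g * h) • z
          rw [mul_smul]
        · change ρ ⟨g, hg⟩ (ρ ⟨h, hh⟩ x + bl ⟨h, hh⟩ z) + bl ⟨g, hg⟩ (h • z) =
            ρ ⟨g, hg⟩ (ρ ⟨h, hh⟩ x) + (ρ ⟨g, hg⟩ (bl ⟨h, hh⟩ z) + bl ⟨g, hg⟩ (h • z))
          rw [map_add, add_assoc])
    refine ⟨-v, fun z => ?_⟩
    have h1 := hv z
    have e1 : b (g * h) z = bl (⟨g, hg⟩ * ⟨h, hh⟩) z := by
      have := hbe (⟨g, hg⟩ * ⟨h, hh⟩) z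
      rw [ofComplex_apply] at this
      exact this
    have e2 : b h z = bl ⟨h, hh⟩ z := by
      have := hbe ⟨h, hh⟩ z
      rw [ofComplex_apply] at this
      exact this
    have e3 : b g (h • z : ℍ) = bl ⟨g, hg⟩ (h • z) := by
      have := hbe ⟨g, hg⟩ (h • z : ℍ)
      rw [ofComplex_apply] at this
      exact this
    rw [e1, e2, e3, hρ' ⟨g, hg⟩, h1]
    abel
  obtain ⟨H, hH, hHol⟩ := Pool.Agent.T6.H65.SG.exists_gauge hΓ' hΛ hper hbs hcoc
  -- the coordinates with values in `EuclideanSpace`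
  let κ : (ℂ × (Fin n → ℂ)) ≃L[ℂ] EuclideanSpace ℂ (Fin (n + 1)) :=
    ContinuousLinearEquiv.ofFinrankEq (by simp [add_comm])
  refine Pool.Agent.T6.H65.SG.main hV hΛ hinj hH κ π hl {g | ∃ f ∈ 𝒢, g = f} ?_ ?_ ?_ hs
  · rintro _ ⟨f, hf, rfl⟩
    obtain ⟨γ, b', hb', hfb⟩ := h𝒢.form f hf
    have h1 : (f : ℍ × V → ℍ × V) = fun p => ((γ : SL(2, ℝ)) • p.1, ρ γ p.2 + b' p.1) := by
      funext p
      exact hfb p.1 p.2
    rw [h1]
    exact ((continuous_const_smul (γ : SL(2, ℝ))).comp continuous_fst).prodMk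
      (((ρ γ).continuous.comp continuous_snd).add (hb'.continuous.comp continuous_fst))
  · rintro _ ⟨f, hf, rfl⟩
    obtain ⟨γ, b', hb', hfb⟩ := h𝒢.form f hf
    obtain ⟨v, hv⟩ := hdiff f hf γ b' hfb
    refine ⟨γ, fun z => Pool.Agent.T6.H65.SG.jf (γ : SL(2, ℝ)) z ^ k, fun z =>
      (Pool.Agent.T6.H65.SG.jf (γ : SL(2, ℝ)) z ^ k • H z +
        (Λ (Pool.Agent.T6.H65.SG.mb (γ : SL(2, ℝ)) z)).f (b (γ : SL(2, ℝ)) z) -
        H (Pool.Agent.T6.H65.SG.mb (γ : SL(2, ℝ)) z)) +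
        Pool.Agent.T6.H65.Th.evW v (Λ (Pool.Agent.T6.H65.SG.mb (γ : SL(2, ℝ)) z)), ?_, ?_, ?_⟩
    · exact (((Pool.Agent.T6.H65.SG.jf_smooth _).differentiable (by simp)).pow k).differentiableOn
    · refine (hHol _ γ.2).add ?_
      have h4 : DifferentiableOn ℂ (fun z => Λ (Pool.Agent.T6.H65.SG.mb (γ : SL(2, ℝ)) z))
          Pool.Agent.T6.H65.SG.Up :=
        hΛ.comp (fun z hz => (Pool.Agent.T6.H65.SG.mb_deriv _ hz).differentiableAt.differentiableWithinAt)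
          (fun z hz => Pool.Agent.T6.H65.SG.mb_mem _ hz)
      exact (Pool.Agent.T6.H65.Th.evW v :
        Pool.Agent.T6.H65.Th.W V (Fin n → ℂ) →L[ℂ] (Fin n → ℂ)).differentiable.comp_differentiableOn h4
    · intro z x
      rw [hfb]
      refine ⟨rfl, ?_⟩
      change (Λ ((γ : SL(2, ℝ)) • z : ℍ)).f (ρ γ x + b' z) - H ((γ : SL(2, ℝ)) • z : ℍ) =
        Pool.Agent.T6.H65.SG.jf (γ : SL(2, ℝ)) z ^ k • ((Λ z).f x - H z) +
          ((Pool.Agent.T6.H65.SG.jf (γ : SL(2, ℝ)) z ^ k • H z +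
        (Λ (Pool.Agent.T6.H65.SG.mb (γ : SL(2, ℝ)) z)).f (b (γ : SL(2, ℝ)) z) -
        H (Pool.Agent.T6.H65.SG.mb (γ : SL(2, ℝ)) z)) +
        (Λ (Pool.Agent.T6.H65.SG.mb (γ : SL(2, ℝ)) z)).f v)
      have e2 : b (γ : SL(2, ℝ)) z = bl γ z := by
        have := hbe γ z
        rw [ofComplex_apply] at this
        exact this
      have h5 := hper _ γ.2 z x
      rw [hρ' γ] at h5
      rw [Pool.Agent.T6.H65.SG.mb_coe, e2, hv z, map_add, map_add, h5, smul_sub]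
      abel
  · intro p q
    rw [hπ]
    constructor
    · rintro ⟨f, hf, h⟩
      exact ⟨f, ⟨f, hf, rfl⟩, h⟩
    · rintro ⟨_, ⟨f, hf, rfl⟩, h⟩
      exact ⟨f, hf, h⟩

end Pool.Agent.Results.MP_1d980c_gt.TorusBundlesOverSurfaces
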