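import Pool.Agent.T6.H65.Th.Main

set_option autoImplicit false

/-!
# Complex structures on torus bundles over the two-torus

Let `G` be a Lie group with a closed normal subgroup `V` isomorphic to a vector group of even
dimension `2n ≥ 4` and with `G / V` isomorphic to the vector group `U = ℝ²`. As a manifold `G` is
`U × V`, and its product is `(u, x) (v, y) = (u + v, x + exp (N u) y + c (u, v))` with a linear map
`N` from `U` to the endomorphisms of `V` with commuting values and a smooth map `c : U × U → V`.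
For example, `G` can be any simply connected nilpotent Lie group of dimension `2n + 2 ≥ 6` whose
Lie algebra has an abelian ideal of codimension two, and any simply connected solvable one if the
quotient of the Lie algebra by the ideal is abelian.

Let `Γ` be a set of elements of `G` whose image in `G / V = ℝ²` is contained in a lattice, and let
`M` be a smooth manifold of dimension `2n + 2` which is the quotient of `G` by the left translations
with the elements of `Γ`. Then `M` is diffeomorphic to a complex manifold.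

So for `k ≥ 3` all compact quotients `Γ \ G` of dimension `2k`, `Γ` a lattice of `G` for which
`Γ ∩ V` is a lattice of `V`, carry complex structures. They are bundles over the two-torus with
fibre the torus `V / (Γ ∩ V)` of dimension `2k - 2 ≥ 4`, and they are parallelizable, so almost
complex. In general `G` has no left-invariant complex structure: examples are the nilpotent group
with Lie algebra `(0, 0, 12, 13, 14, 15)`, the product of `ℝ²` with the four-dimensional filiform
group, and `Sol³ × ℝ³`. In dimension four (`n = 1`) the statement is false. (By the classification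
of the nilpotent Lie algebras of dimension six, which is not used here, the theorem applies to all
compact six-dimensional nilmanifolds except those of the two Lie algebras
`(0, 0, 12, 13, 14, 34 + 52)` and `(0, 0, 12, 13, 14 + 23, 34 + 52)`; only 18 of the 34 Lie algebras
have left-invariant complex structures.)

Proof. The complex structures come from holomorphic families `Λ(z)`, `z ∈ ℂ = ℝ²`, of real linear
isomorphisms `V → ℂⁿ` such that `Λ(z + a + b i) exp (a N₁ + b N₂)` is a scalar multiple of `Λ(z)` for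
`a`, `b ∈ ℤ`. For `N = 0` such a family, not constant up to scalars if `n ≥ 2`, is given by theta
functions; for small `N` the theta functions are evaluated at matrices, `θ(z + (N₂ - i N₁) / (8 π i))`,
and the family stays nondegenerate by compactness; general `N` are reduced to small `N` by passing to
a finer lattice.
-/

namespace Pool.Agent.Results.MP_1d980c_gt.TorusBundlesOverTori

open Module
open scoped Manifold ContDiff

variable {U V : Type} [NormedAddCommGroup U] [NormedSpace ℝ U] [NormedAddCommGroup V]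
  [NormedSpace ℝ V]

/-- The product `(u, x) (v, y) = (u + v, x + exp (N u) y + c (u, v))` on `U × V`. -/
noncomputable def mul (N : U →ₗ[ℝ] V →L[ℝ] V) (c : U → U → V) (g h : U × V) : U × V :=
  (g.1 + h.1, g.2 + NormedSpace.exp (N g.1) h.2 + c g.1 h.1)

/-- `mul N c` is the product of a Lie group `G` with neutral element `0`: the map `c` is smooth, `0` is
neutral and the product is associative. (Inverses exist automatically.) The subset `{0} × V` is a
normal subgroup, isomorphic to the vector group `V`, and `(u, x) ↦ u` identifies `G / V` with `U`. -/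
structure IsGroupLaw (N : U →ₗ[ℝ] V →L[ℝ] V) (c : U → U → V) : Prop where
  smooth : ContDiff ℝ ∞ fun p : U × U => c p.1 p.2
  commute : ∀ u v, Commute (N u) (N v)
  zero_mul : ∀ g, mul N c 0 g = g
  mul_zero : ∀ g, mul N c g 0 = g
  assoc : ∀ g h k, mul N c (mul N c g h) k = mul N c g (mul N c h k)

/-- **Complex structures on torus bundles over the two-torus.** Let `G` be a Lie group with a normal
vector subgroup `V` of dimension `2n ≥ 4` and quotient `G / V = U` of dimension `2`. Let `M` be a smooth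
manifold of dimension `2 (n + 1)` which is a quotient of `G` by left translations with elements `γ`
whose classes in `U` belong to the lattice generated by a basis `e₁`, `e₂` of `U`: there is a
surjective local diffeomorphism `π` from `G` to `M` whose fibres are the orbits. Then `M` is
diffeomorphic to a complex manifold. -/
theorem result [FiniteDimensional ℝ U] [FiniteDimensional ℝ V] (n : ℕ) (hn : 2 ≤ n)
    (hU : finrank ℝ U = 2) (hV : finrank ℝ V = 2 * n)
    (N : U →ₗ[ℝ] V →L[ℝ] V) (c : U → U → V) (hG : IsGroupLaw N c)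
    (M : Type) [TopologicalSpace M] [ChartedSpace (EuclideanSpace ℝ (Fin (2 * (n + 1)))) M]
    [IsManifold (𝓡 (2 * (n + 1))) ∞ M]
    (e₁ e₂ : U) (he : LinearIndependent ℝ ![e₁, e₂])
    (Γ : Set (U × V)) (hΓ : ∀ γ ∈ Γ, ∃ a b : ℤ, γ.1 = a • e₁ + b • e₂)
    (π : U × V → M) (hs : Function.Surjective π)
    (hl : IsLocalDiffeomorph 𝓘(ℝ, U × V) (𝓡 (2 * (n + 1))) ∞ π)
    (hπ : ∀ x y, π x = π y ↔ ∃ γ ∈ Γ, mul N c γ x = y) :
    ∃ (X : Type) (_ : TopologicalSpace X)
      (_ : ChartedSpace (EuclideanSpace ℂ (Fin (n + 1))) X),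
      IsManifold 𝓘(ℂ, EuclideanSpace ℂ (Fin (n + 1))) ∞ X ∧
      Nonempty (Diffeomorph (𝓡 (2 * (n + 1))) 𝓘(ℝ, EuclideanSpace ℂ (Fin (n + 1))) M X ∞) := by
  have : CompleteSpace V := FiniteDimensional.complete ℝ V
  -- linear coordinates on `U`
  let f : ℝ × ℝ →ₗ[ℝ] U :=
    { toFun := fun p => p.1 • e₁ + p.2 • e₂
      map_add' := fun p q => by
        simp only [Prod.fst_add, Prod.snd_add, add_smul]
        abel
      map_smul' := fun r p => by
        simp only [Prod.smul_fst, Prod.smul_snd, smul_eq_mul, mul_smul, smul_add,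
          RingHom.id_apply] }
  have hf : Function.Injective f := by
    rw [injective_iff_map_eq_zero]
    intro p hp
    have h1 := LinearIndependent.pair_iff.1 he p.1 p.2 hp
    exact Prod.ext h1.1 h1.2
  let ψ : (ℝ × ℝ) ≃L[ℝ] U :=
    (LinearEquiv.ofInjectiveOfFinrankEq f hf (by simp [hU])).toContinuousLinearEquiv
  have hψ : ∀ p, ψ p = p.1 • e₁ + p.2 • e₂ := fun p => rfl
  let c' : ℝ × ℝ → ℝ × ℝ → V := fun u v => c (ψ u) (ψ v)
  have hrho : ∀ u, Pool.Agent.T6.H65.Th.rho (N e₁) (N e₂) u = NormedSpace.exp (N (ψ u)) := by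
    intro u
    rw [Pool.Agent.T6.H65.Th.rho, hψ, map_add, map_smul, map_smul]
  have hmul : ∀ g h : (ℝ × ℝ) × V,
      mul N c (ψ g.1, g.2) (ψ h.1, h.2) =
        (ψ (Pool.Agent.T6.H65.Th.gm (N e₁) (N e₂) c' g h).1,
          (Pool.Agent.T6.H65.Th.gm (N e₁) (N e₂) c' g h).2) := fun g h => by
    refine Prod.ext ?_ ?_
    · change ψ g.1 + ψ h.1 = ψ (g.1 + h.1)
      rw [map_add]
    · change g.2 + NormedSpace.exp (N (ψ g.1)) h.2 + c (ψ g.1) (ψ h.1) =
        g.2 + Pool.Agent.T6.H65.Th.rho (N e₁) (N e₂) g.1 h.2 + c (ψ g.1) (ψ h.1)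
      rw [hrho]
  have hlaw : Pool.Agent.T6.H65.Th.Law (N e₁) (N e₂) c' := by
    have hz : ∀ v, c 0 v = 0 := fun v => by
      have h1 := congrArg Prod.snd (hG.zero_mul (v, 0))
      change (0 : V) + NormedSpace.exp (N (0 : U)) (0 : V) + c 0 v = 0 at h1
      rwa [map_zero, zero_add, zero_add] at h1
    have hz' : ∀ v, c v 0 = 0 := fun v => by
      have h1 := congrArg Prod.snd (hG.mul_zero (v, 0))
      change (0 : V) + NormedSpace.exp (N v) (0 : V) + c v 0 = 0 at h1
      rwa [map_zero, zero_add, zero_add] at h1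
    refine ⟨?_, fun u => ?_, fun u => ?_, fun v u w => ?_⟩
    · exact hG.smooth.comp ((ψ.contDiff.comp contDiff_fst).prodMk (ψ.contDiff.comp contDiff_snd))
    · change c (ψ 0) (ψ u) = 0
      rw [map_zero, hz]
    · change c (ψ u) (ψ 0) = 0
      rw [map_zero, hz']
    · have h1 := congrArg Prod.snd (hG.assoc (ψ v, 0) (ψ u, 0) (ψ w, 0))
      change (0 : V) + NormedSpace.exp (N (ψ v)) (0 : V) + c (ψ v) (ψ u) +
        NormedSpace.exp (N (ψ v + ψ u)) (0 : V) + c (ψ v + ψ u) (ψ w) =
        0 + NormedSpace.exp (N (ψ v)) (0 + NormedSpace.exp (N (ψ u)) (0 : V) + c (ψ u) (ψ w)) +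
          c (ψ v) (ψ u + ψ w) at h1
      simp only [map_zero, zero_add, add_zero] at h1
      change c (ψ v) (ψ u) + c (ψ (v + u)) (ψ w) =
        Pool.Agent.T6.H65.Th.rho (N e₁) (N e₂) v (c (ψ u) (ψ w)) + c (ψ v) (ψ (u + w))
      rw [hrho, map_add, map_add]
      exact h1
  obtain ⟨Φ₀, h1, h2, h3⟩ := Pool.Agent.T6.H65.Th.coords n hn hV (hG.commute e₁ e₂) hlaw
  -- the coordinates with values in `EuclideanSpace`
  let κ : (ℂ × (Fin n → ℂ)) ≃L[ℂ] EuclideanSpace ℂ (Fin (n + 1)) :=
    ContinuousLinearEquiv.ofFinrankEq (by simp [add_comm])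
  let θ : (U × V) ≃L[ℝ] ((ℝ × ℝ) × V) := ψ.symm.prodCongr (ContinuousLinearEquiv.refl ℝ V)
  let Φ : (U × V) ≃ₜ EuclideanSpace ℂ (Fin (n + 1)) :=
    (θ.toHomeomorph.trans Φ₀).trans κ.toHomeomorph
  have hκ : ContDiff ℝ ∞ κ := κ.contDiff.restrict_scalars ℝ
  have hκ' : ContDiff ℝ ∞ κ.symm := κ.symm.contDiff.restrict_scalars ℝ
  have hΦ : ContDiff ℝ ∞ Φ := hκ.comp (h1.comp θ.contDiff)
  have hΦ' : ContDiff ℝ ∞ Φ.symm := θ.symm.contDiff.comp (h2.comp hκ')
  refine Pool.Agent.W305.NC.quotient Φ π hl hΦ hΦ' {g | ∃ γ ∈ Γ, g = mul N c γ} ?_ ?_ hs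
  · rintro g ⟨γ, hγ, rfl⟩
    obtain ⟨a, b, hab⟩ := hΓ γ hγ
    have h4 := h3 (ψ.symm γ.1) γ.2 ⟨a, b, by
      rw [ContinuousLinearEquiv.symm_apply_eq, hψ, hab]
      simp only [Int.cast_smul_eq_zsmul]⟩
    have h5 : (fun z => Φ (mul N c γ (Φ.symm z))) = fun z => κ (Φ₀
        (Pool.Agent.T6.H65.Th.gm (N e₁) (N e₂) c' (ψ.symm γ.1, γ.2) (Φ₀.symm (κ.symm z)))) := by
      funext z
      obtain ⟨p, hp⟩ : ∃ p, p = Φ₀.symm (κ.symm z) := ⟨_, rfl⟩
      have h6 : Φ.symm z = (ψ p.1, p.2) := by
        rw [hp]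
        rfl
      have h7 : γ = (ψ (ψ.symm γ.1), γ.2) := by
        rw [ContinuousLinearEquiv.apply_symm_apply]
      rw [← hp, h6, h7, hmul (ψ.symm γ.1, γ.2) p]
      change κ (Φ₀ (ψ.symm (ψ _), _)) = _
      simp only [ContinuousLinearEquiv.symm_apply_apply]
      rfl
    rw [h5]
    exact κ.contDiff.comp (h4.comp κ.symm.contDiff)
  · intro x y
    rw [hπ]
    constructor
    · rintro ⟨γ, hγ, hxy⟩
      exact ⟨mul N c γ, ⟨γ, hγ, rfl⟩, hxy⟩
    · rintro ⟨g, ⟨γ, hγ, rfl⟩, hxy⟩
      exact ⟨γ, hγ, hxy⟩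

end Pool.Agent.Results.MP_1d980c_gt.TorusBundlesOverTori
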